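import Mathlib
import Pool.Agent.Q182.Dom

/-!
# The Lebesgue differentiation property alone gives the ergodic Lebesgue differentiation theorem
in `L^p`, `p > 1`
-/

set_option autoImplicit false

open Set Filter Topology MeasureTheory Metric
open scoped ENNReal

namespace Pool.Agent.Results.MP_894476_an.LebDiffSuffices

open Pool.Agent.Q182.Dom

variable {X : Type*} [MetricSpace X] [MeasurableSpace X]

/-- The Lebesgue differentiation property of a Borel measure on a metric space: for every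
integrable real function the averages over the balls `B(x,r)` tend to `f x` as `r` decreases
to `0`, for almost every `x`. -/
def LebDiff (μ : Measure X) : Prop :=
  ∀ f : X → ℝ, Integrable f μ → ∀ᵐ x ∂μ, Tendsto (fun r => ⨍ y in ball x r, f y ∂μ) (𝓝[>] 0) (𝓝 (f x))

lemma congr_avg {E : Type*} [NormedAddCommGroup E] [NormedSpace ℝ E] {μ : Measure X} {T : X → X}
    (hT : MeasurePreserving T μ μ) {f g : X → E} (h : f =ᵐ[μ] g) (k : ℕ) :
    birkhoffAverage ℝ T f k =ᵐ[μ] birkhoffAverage ℝ T g k := by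
  have h1 : ∀ᵐ x ∂μ, ∀ j : ℕ, f (T^[j] x) = g (T^[j] x) := by
    rw [ae_all_iff]
    intro j
    exact (hT.iterate j).quasiMeasurePreserving.ae_eq_comp h
  filter_upwards [h1] with x hx
  unfold birkhoffAverage birkhoffSum
  congr 1
  exact Finset.sum_congr rfl fun j _ => hx j

lemma sup_meas {μ : Measure X} {T : X → X} (hT : MeasurePreserving T μ μ) {f fs : X → ℝ}
    (hf : Measurable f) (hfs : Measurable fs) (K : ℕ) :
    Measurable fun x => ⨆ k : ℕ, ENNReal.ofReal |A T f (K + k) x - fs x| :=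
  Measurable.iSup fun k => ((A_meas hT.measurable hf (K + k)).sub hfs).abs.ennreal_ofReal

/-- the theorem for measurable real functions -/
theorem real_meas {μ : Measure X} [BorelSpace X] [IsProbabilityMeasure μ] (hL : LebDiff μ)
    {T : X → X} (hT : MeasurePreserving T μ μ) {f : X → ℝ} (hf : Measurable f) {q : ℝ}
    (hq : 1 < q) (hi : Integrable (fun x => |f x| ^ q) μ) (hfi : Integrable f μ) :
    ∀ᵐ x ∂μ, ∀ ε > 0, ∃ δ > 0, ∃ K : ℕ, ∀ r, 0 < r → r < δ → ∀ k ≥ K,
      ‖(⨍ y in ball x r, birkhoffAverage ℝ T f k y ∂μ) -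
        (μ[f | MeasurableSpace.invariants T]) x‖ < ε := by
  classical
  set fs : X → ℝ := μ[f | MeasurableSpace.invariants T] with hfs
  have hfsi : Integrable fs μ := integrable_condExp
  have hfsm : Measurable fs :=
    (stronglyMeasurable_condExp.mono (MeasurableSpace.invariants_le T)).measurable
  have hbk := birkhoff hT hf hfi
  set g : ℕ → X → ℝ≥0∞ := fun K x => ⨆ k : ℕ, ENNReal.ofReal |A T f (K + k) x - fs x| with hg
  have hgm : ∀ K, Measurable (g K) := fun K => sup_meas hT hf hfsm K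
  have hgle : ∀ K x, g K x ≤ AS T (fun x => |f x|) x + ENNReal.ofReal |fs x| := by
    intro K x
    refine iSup_le fun k => ?_
    refine le_trans (ENNReal.ofReal_le_ofReal (abs_sub _ _)) ?_
    rw [ENNReal.ofReal_add (abs_nonneg _) (abs_nonneg _)]
    exact add_le_add (le_AS T f (K + k) x) le_rfl
  have hgfin : ∀ K, ∫⁻ x, g K x ∂μ < ∞ := by
    intro K
    refine lt_of_le_of_lt (lintegral_mono (hgle K)) ?_
    rw [lintegral_add_left (AS_meas hT.measurable hf.abs)]
    refine ENNReal.add_lt_top.2 ⟨AS_integrable hT hf hq hi, ?_⟩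
    have := hfsi.2
    rw [hasFiniteIntegral_iff_norm] at this
    simpa [Real.norm_eq_abs] using this
  have hgae : ∀ K, ∀ᵐ x ∂μ, g K x < ∞ := fun K => ae_lt_top (hgm K) (hgfin K).ne
  have hGi : ∀ K, Integrable (fun x => (g K x).toReal) μ := fun K =>
    integrable_toReal_of_lintegral_ne_top (hgm K).aemeasurable (hgfin K).ne
  have hGL : ∀ᵐ x ∂μ, ∀ K, Tendsto (fun r => ⨍ y in ball x r, (g K y).toReal ∂μ) (𝓝[>] 0)
      (𝓝 (g K x).toReal) := by
    rw [ae_all_iff]
    intro K
    exact hL _ (hGi K)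
  filter_upwards [hGL, hL fs hfsi, hbk] with x hx1 hx2 hx3
  intro ε hε
  -- choose K
  obtain ⟨K, hK⟩ : ∃ K : ℕ, (g K x).toReal < ε / 2 := by
    have h1 : Tendsto (fun n => |A T f n x - fs x|) atTop (𝓝 0) := by
      have := (hx3.sub_const (fs x)).abs
      rw [sub_self, abs_zero] at this
      exact this
    obtain ⟨K, hK⟩ := (h1.eventually (gt_mem_nhds (show (0 : ℝ) < ε / 4 by positivity))).exists_forall_of_atTop
    refine ⟨K, ?_⟩
    have h2 : g K x ≤ ENNReal.ofReal (ε / 4) :=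
      iSup_le fun k => ENNReal.ofReal_le_ofReal (hK (K + k) (Nat.le_add_right _ _)).le
    have h3 : (g K x).toReal ≤ ε / 4 := ENNReal.toReal_le_of_le_ofReal (by positivity) h2
    linarith
  have e1 : ∀ᶠ r in 𝓝[>] (0 : ℝ), (⨍ y in ball x r, (g K y).toReal ∂μ) < ε / 2 :=
    (hx1 K).eventually (gt_mem_nhds hK)
  have e2 : ∀ᶠ r in 𝓝[>] (0 : ℝ), ‖(⨍ y in ball x r, fs y ∂μ) - fs x‖ < ε / 2 := by
    have := (tendsto_iff_norm_sub_tendsto_zero.1 hx2).eventually
      (gt_mem_nhds (show (0 : ℝ) < ε / 2 by positivity))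
    exact this
  obtain ⟨δ, hδ, hδ2⟩ := mem_nhdsGT_iff_exists_Ioo_subset.1 (e1.and e2)
  refine ⟨δ, hδ, K, fun r hr0 hrδ k hk => ?_⟩
  obtain ⟨h1, h2⟩ := hδ2 ⟨hr0, hrδ⟩
  have hAi : Integrable (A T f k) μ := by
    have : A T f k = fun y => (k : ℝ)⁻¹ * ∑ j ∈ Finset.range k, f (T^[j] y) := rfl
    rw [this]
    exact (integrable_finsetSum _ fun j _ => (hT.iterate j).integrable_comp_of_integrable hfi).const_mul _
  have h3 : (⨍ y in ball x r, birkhoffAverage ℝ T f k y ∂μ) - fs x =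
      (⨍ y in ball x r, (A T f k y - fs y) ∂μ) + ((⨍ y in ball x r, fs y ∂μ) - fs x) := by
    have e : (⨍ y in ball x r, (A T f k y - fs y) ∂μ) =
        (⨍ y in ball x r, A T f k y ∂μ) - (⨍ y in ball x r, fs y ∂μ) := by
      simp only [setAverage_eq]
      rw [integral_sub hAi.integrableOn hfsi.integrableOn, smul_sub]
    rw [e]
    have e' : (fun y => birkhoffAverage ℝ T f k y) = fun y => A T f k y := rfl
    rw [e']
    ring
  rw [h3]
  have h4 : ‖⨍ y in ball x r, (A T f k y - fs y) ∂μ‖ ≤ ⨍ y in ball x r, (g K y).toReal ∂μ := by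
    simp only [setAverage_eq, smul_eq_mul]
    rw [norm_mul, Real.norm_of_nonneg (by positivity : (0 : ℝ) ≤ (μ.real (ball x r))⁻¹)]
    refine mul_le_mul_of_nonneg_left ?_ (by positivity)
    refine (norm_integral_le_integral_norm _).trans ?_
    refine integral_mono_ae (hAi.sub hfsi).norm.integrableOn (hGi K).integrableOn ?_
    refine ae_restrict_of_ae ?_
    filter_upwards [hgae K] with y hy
    rw [Real.norm_eq_abs]
    have h5 : ENNReal.ofReal |A T f k y - fs y| ≤ g K y := by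
      have h6 : ENNReal.ofReal |A T f (K + (k - K)) y - fs y| ≤ g K y :=
        le_iSup (fun k : ℕ => ENNReal.ofReal |A T f (K + k) y - fs y|) (k - K)
      rwa [Nat.add_sub_cancel' hk] at h6
    exact (ENNReal.ofReal_le_iff_le_toReal hy.ne).1 h5
  calc ‖(⨍ y in ball x r, (A T f k y - fs y) ∂μ) + ((⨍ y in ball x r, fs y ∂μ) - fs x)‖
      ≤ ‖⨍ y in ball x r, (A T f k y - fs y) ∂μ‖ + ‖(⨍ y in ball x r, fs y ∂μ) - fs x‖ :=
        norm_add_le _ _
    _ < ε / 2 + ε / 2 := add_lt_add (h4.trans_lt h1) h2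
    _ = ε := add_halves ε

/-- the theorem for real functions -/
theorem real_case {μ : Measure X} [BorelSpace X] [IsProbabilityMeasure μ] (hL : LebDiff μ)
    {T : X → X} (hT : MeasurePreserving T μ μ) {f : X → ℝ} {p : ℝ≥0∞}
    (hp : 1 < p) (hf : MemLp f p μ) :
    ∀ᵐ x ∂μ, ∀ ε > 0, ∃ δ > 0, ∃ K : ℕ, ∀ r, 0 < r → r < δ → ∀ k ≥ K,
      ‖(⨍ y in ball x r, birkhoffAverage ℝ T f k y ∂μ) -
        (μ[f | MeasurableSpace.invariants T]) x‖ < ε := by
  set q : ℝ≥0∞ := min p 2 with hq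
  have hq1 : 1 < q := lt_min hp (by norm_num)
  have hq2 : q ≠ ∞ := (lt_of_le_of_lt (min_le_right _ _) (by norm_num)).ne
  have hfq : MemLp f q μ := hf.mono_exponent (min_le_left _ _)
  set f' := hf.1.mk f with hf'
  have hff : f =ᵐ[μ] f' := hf.1.ae_eq_mk
  have hfm' : Measurable f' := hf.1.stronglyMeasurable_mk.measurable
  have hfq' : MemLp f' q μ := (memLp_congr_ae hff).1 hfq
  have hfi' : Integrable f' μ := hfq'.integrable hq1.le
  have hqi : Integrable (fun x => |f' x| ^ q.toReal) μ := by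
    have := hfq'.integrable_norm_rpow (by positivity) hq2
    simpa [Real.norm_eq_abs] using this
  have hqr : 1 < q.toReal := by
    rw [← ENNReal.toReal_one]
    exact (ENNReal.toReal_lt_toReal (by norm_num) hq2).2 hq1
  have hce : μ[f | MeasurableSpace.invariants T] =ᵐ[μ] μ[f' | MeasurableSpace.invariants T] :=
    condExp_congr_ae hff
  filter_upwards [real_meas hL hT hfm' hqr hqi hfi', hce] with x hx hx2
  intro ε hε
  obtain ⟨δ, hδ, K, hK⟩ := hx ε hε
  refine ⟨δ, hδ, K, fun r hr0 hrδ k hk => ?_⟩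
  have h1 := hK r hr0 hrδ k hk
  rw [hx2]
  have h2 : (⨍ y in ball x r, birkhoffAverage ℝ T f k y ∂μ) =
      ⨍ y in ball x r, birkhoffAverage ℝ T f' k y ∂μ := by
    simp only [setAverage_eq]
    congr 1
    exact integral_congr_ae (ae_restrict_of_ae (congr_avg hT hff k))
  rw [h2]
  exact h1

theorem clm_part {𝕜 : Type*} [RCLike 𝕜] {μ : Measure X} [BorelSpace X] [IsProbabilityMeasure μ]
    (hL : LebDiff μ) {T : X → X} (hT : MeasurePreserving T μ μ) {f : X → 𝕜} {p : ℝ≥0∞}
    (hp : 1 < p) (hf : MemLp f p μ) (L : 𝕜 →L[ℝ] ℝ) :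
    ∀ᵐ x ∂μ, ∀ ε > 0, ∃ δ > 0, ∃ K : ℕ, ∀ r, 0 < r → r < δ → ∀ k ≥ K,
      ‖L ((⨍ y in ball x r, birkhoffAverage ℝ T f k y ∂μ) -
        (μ[f | MeasurableSpace.invariants T]) x)‖ < ε := by
  have hLf : MemLp (L ∘ f) p μ := L.comp_memLp' hf
  have hfi : Integrable f μ := hf.integrable hp.le
  have hce := L.comp_condExp_comm (m := MeasurableSpace.invariants T) hfi
  filter_upwards [real_case hL hT hp hLf, hce] with x hx hx2
  intro ε hε
  obtain ⟨δ, hδ, K, hK⟩ := hx ε hε
  refine ⟨δ, hδ, K, fun r hr0 hrδ k hk => ?_⟩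
  have h1 := hK r hr0 hrδ k hk
  have hAi : Integrable (birkhoffAverage ℝ T f k) μ := by
    have : birkhoffAverage ℝ T f k = fun y => (k : ℝ)⁻¹ • ∑ j ∈ Finset.range k, f (T^[j] y) := rfl
    rw [this]
    exact (integrable_finsetSum _ fun j _ =>
      (hT.iterate j).integrable_comp_of_integrable hfi).smul (k : ℝ)⁻¹
  have h2 : L (⨍ y in ball x r, birkhoffAverage ℝ T f k y ∂μ) =
      ⨍ y in ball x r, birkhoffAverage ℝ T (L ∘ f) k y ∂μ := by
    simp only [setAverage_eq]
    rw [L.map_smul, ← L.integral_comp_comm hAi.integrableOn]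
    congr 2
    funext y
    exact map_birkhoffAverage ℝ ℝ L T f k y
  rw [map_sub, h2]
  have h3 : L ((μ[f | MeasurableSpace.invariants T]) x) =
      (μ[L ∘ f | MeasurableSpace.invariants T]) x := hx2
  rw [h3]
  exact h1

/-- Let `μ` be a Borel probability measure on a metric space with the Lebesgue differentiation
property. Then for every measure-preserving `T`, every `p > 1` and every `f ∈ L^p(μ)` (real or
complex), for almost every `x` the averages over `B(x,r)` of the ergodic averages of length `k`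
tend to the conditional expectation of `f` on the invariant σ-algebra as `r → 0` and `k → ∞`
jointly. -/
theorem result {X : Type*} [MetricSpace X] [MeasurableSpace X] [BorelSpace X] (μ : Measure X)
    [IsProbabilityMeasure μ] (hμ : LebDiff μ) {𝕜 : Type*} [RCLike 𝕜] (T : X → X)
    (hT : MeasurePreserving T μ μ) (p : ℝ≥0∞) (hp : 1 < p) (f : X → 𝕜) (hf : MemLp f p μ) :
    ∀ᵐ x ∂μ, ∀ ε > 0, ∃ δ > 0, ∃ K : ℕ, ∀ r, 0 < r → r < δ → ∀ k ≥ K,
      ‖(⨍ y in ball x r, birkhoffAverage ℝ T f k y ∂μ) -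
        (μ[f | MeasurableSpace.invariants T]) x‖ < ε := by
  filter_upwards [clm_part hμ hT hp hf RCLike.reCLM, clm_part hμ hT hp hf RCLike.imCLM]
    with x hx1 hx2
  intro ε hε
  obtain ⟨δ1, hδ1, K1, h1⟩ := hx1 (ε / 2) (by positivity)
  obtain ⟨δ2, hδ2, K2, h2⟩ := hx2 (ε / 2) (by positivity)
  refine ⟨min δ1 δ2, lt_min hδ1 hδ2, max K1 K2, fun r hr0 hrδ k hk => ?_⟩
  have h3 := h1 r hr0 (lt_of_lt_of_le hrδ (min_le_left _ _)) k (le_trans (le_max_left _ _) hk)
  have h4 := h2 r hr0 (lt_of_lt_of_le hrδ (min_le_right _ _)) k (le_trans (le_max_right _ _) hk)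
  set z := (⨍ y in ball x r, birkhoffAverage ℝ T f k y ∂μ) -
        (μ[f | MeasurableSpace.invariants T]) x with hz
  have h5 : ‖z‖ ≤ |RCLike.re z| + |RCLike.im z| := by
    have e := RCLike.re_add_im z
    calc ‖z‖ = ‖(RCLike.re z : 𝕜) + (RCLike.im z : 𝕜) * RCLike.I‖ := by rw [e]
      _ ≤ ‖(RCLike.re z : 𝕜)‖ + ‖(RCLike.im z : 𝕜) * RCLike.I‖ := norm_add_le _ _
      _ ≤ |RCLike.re z| + |RCLike.im z| := by
          rw [norm_mul, RCLike.norm_ofReal, RCLike.norm_ofReal]
          have h1 : ‖(RCLike.I : 𝕜)‖ ≤ 1 := by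
            rcases RCLike.I_eq_zero_or_im_I_eq_one (K := 𝕜) with h | h
            · rw [h]; simp
            · rw [RCLike.norm_I_of_ne_zero]
              rintro h0
              rw [h0] at h
              simp at h
          have := mul_le_mul_of_nonneg_left h1 (abs_nonneg (RCLike.im z))
          linarith
  have h6 : |RCLike.re z| < ε / 2 := h3
  have h7 : |RCLike.im z| < ε / 2 := h4
  linarith

end Pool.Agent.Results.MP_894476_an.LebDiffSuffices
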